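import Pool.Agent.OPH.Stmts
import Pool.Agent.Helper88_OPG.RES

/-!
# Squad OPH, row RE2 (the final theorem, polylogarithmic version)
-/

set_option autoImplicit false

namespace Pool.Agent.OPH.H68

open Finset Pool.Agent.OPG Pool.Agent.OPH Pool.Agent.OPG.H88

theorem re2 (hfi2 : Fi2Stmt) : Re2Stmt := by
  obtain ⟨C, hC, hM⟩ := hfi2 3 (by decide)
  have hC' : (1 : ℝ) ≤ C := by exact_mod_cast hC
  refine ⟨1 / (C * 2 ^ C), C, by positivity, ?_⟩
  intro k hk
  have hk' : (1 : ℝ) ≤ k := by exact_mod_cast hk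
  set L := Real.log (2 * k) with hL
  have hlog2 : (1 : ℝ) / 2 ≤ Real.log 2 := by
    have := Real.log_two_gt_d9
    linarith
  have hL2 : Real.log 2 ≤ L := Real.log_le_log (by norm_num) (by linarith)
  have hL0 : 0 < L := by linarith
  set N := ((Ioo ((2 * k - 1) ^ 2) ((2 * k + 1) ^ 2)).filter
      (fun n => Odd n ∧ Odd (ArithmeticFunction.cardFactors n))).card with hN
  have hkey : (k : ℝ) ≤ C * (2 * L) ^ C * N := by
    by_cases hlt : C ≤ 2 * k
    · have h1 := hM (2 * k) sg (-1) hlt (even_two_mul k) sg_mul sg_three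
      have h2 : NS sg (-1) (2 * k) = (Ioo ((2 * k - 1) ^ 2) ((2 * k + 1) ^ 2)).filter
          (fun n => Odd n ∧ Odd (ArithmeticFunction.cardFactors n)) := by
        unfold NS
        apply filter_congr
        intro n _
        rw [sg_iff]
      rw [h2, ← hN] at h1
      have h3 : (2 * (k : ℝ)) ≤ C * ((Nat.log 2 (2 * k) : ℕ) : ℝ) ^ C * N := by exact_mod_cast h1
      have h4 : ((Nat.log 2 (2 * k) : ℕ) : ℝ) ≤ 2 * L := by
        have h5 : ((2 : ℝ) ^ (Nat.log 2 (2 * k))) ≤ 2 * k := by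
          have := Nat.pow_log_le_self 2 (x := 2 * k) (by omega)
          exact_mod_cast this
        have h6 := Real.log_le_log (by positivity) h5
        rw [Real.log_pow, ← hL] at h6
        have h7 : ((Nat.log 2 (2 * k) : ℕ) : ℝ) * (1 / 2) ≤
            ((Nat.log 2 (2 * k) : ℕ) : ℝ) * Real.log 2 :=
          mul_le_mul_of_nonneg_left hlog2 (by positivity)
        linarith
      have h8 : (((Nat.log 2 (2 * k) : ℕ) : ℝ)) ^ C ≤ (2 * L) ^ C :=
        pow_le_pow_left₀ (by positivity) h4 C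
      calc (k : ℝ) ≤ 2 * k := by linarith
        _ ≤ C * ((Nat.log 2 (2 * k) : ℕ) : ℝ) ^ C * N := h3
        _ ≤ C * (2 * L) ^ C * N := by
            apply mul_le_mul_of_nonneg_right _ (by positivity)
            exact mul_le_mul_of_nonneg_left h8 (by positivity)
    · obtain ⟨n, hn1, hn2, hn3, hn4⟩ := Pool.Agent.OddParity.claim_all k hk
      have hpos : 1 ≤ N :=
        card_pos.mpr ⟨n, mem_filter.mpr ⟨mem_Ioo.mpr ⟨hn2, hn3⟩, hn1, hn4⟩⟩
      have hpos' : (1 : ℝ) ≤ N := by exact_mod_cast hpos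
      have h1 : (k : ℝ) ≤ C := by
        have : k ≤ C := by omega
        exact_mod_cast this
      have h2 : (1 : ℝ) ≤ (2 * L) ^ C := one_le_pow₀ (by linarith)
      calc (k : ℝ) ≤ C * 1 * 1 := by linarith
        _ ≤ C * (2 * L) ^ C * N := by gcongr
  rw [mul_pow] at hkey
  rw [div_le_iff₀ (by positivity), one_div, ← div_eq_inv_mul, div_le_iff₀ (by positivity)]
  linarith

end Pool.Agent.OPH.H68
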